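import Pool.Agent.H137R2.Tr.Main
set_option autoImplicit false

/-! Final theorem in arbitrary abelian groups, every real `s ≥ 1`. -/

namespace H137.Tr

open Finset H112
open scoped Pointwise

theorem trade_fg' {G : Type*} [AddCommGroup G] [AddGroup.FG G] [DecidableEq G] {K s : ℝ}
    {A : Finset G} (hA : A.Nonempty) (hK : ((A + A).card : ℝ) ≤ K * A.card) (hK1 : 1 ≤ K)
    (hs : 1 ≤ s) :
    ∃ (d : ℕ) (B : Set (Fin d → ℝ)) (ψ : (Fin d → ℤ) →+ G) (H₀ : AddSubgroup G) (T : Finset G),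
      (d : ℝ) ≤ 63000 * s * Real.log (2 * K) ∧ SymmBody B ∧ Finite H₀ ∧
      (({c : Fin d → ℤ | (fun i => (c i : ℝ)) ∈ B}.ncard * Nat.card H₀ : ℕ) : ℝ) ≤
        Real.exp (17000 * Real.log (2 * K) * (1 + Real.log (2 * K)) ^ (1 / s) *
          (1 + Real.log (1 + Real.log (2 * K)))) * A.card ∧
      (T.card : ℝ) ≤ (2 * K) ^ (24200 * s) ∧ Covers B ψ H₀ T A := by
  obtain ⟨κ, hκ⟩ : ∃ κ : ℝ, κ = Real.log (2 * K) := ⟨_, rfl⟩
  rw [← hκ]
  have hκ0 : 0 < κ := by rw [hκ]; exact Real.log_pos (by linarith)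
  obtain ⟨lam, hlam⟩ : ∃ lam : ℝ, lam = Real.log (1 + κ) := ⟨_, rfl⟩
  have hlam0 : 0 ≤ lam := by rw [hlam]; exact Real.log_nonneg (by linarith)
  have hexp : ∀ t : ℝ, Real.exp (24200 * t * κ) = (2 * K) ^ (24200 * t) := by
    intro t
    rw [Real.rpow_def_of_pos (by linarith), ← hκ]
    congr 1; ring
  have hpow : ∀ t : ℝ, (1 + κ) ^ (1 / t) = Real.exp (lam / t) := by
    intro t
    rw [Real.rpow_def_of_pos (by linarith), ← hlam]
    congr 1; ring
  rw [← hexp, hpow, ← hlam]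
  have hA0 : (0 : ℝ) ≤ A.card := Nat.cast_nonneg _
  have hP1 : 1 ≤ Real.exp (lam / s) := Real.one_le_exp (by positivity)
  by_cases hs2 : s ≤ 1 + lam
  · obtain ⟨d, B, ψ, H₀, T, h1, h2, h3, h4, h5, h6⟩ :=
      trade_fg hA hK hK1 hκ hs (by rw [← hlam]; exact hs2)
    refine ⟨d, B, ψ, H₀, T, h1, h2, h3, h4.trans ?_, h5, h6⟩
    apply mul_le_mul_of_nonneg_right _ hA0
    apply Real.exp_le_exp.2
    rw [hpow, ← hlam]
    have : 0 ≤ κ * Real.exp (lam / s) * (1 + lam) := by positivity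
    nlinarith
  · push Not at hs2
    obtain ⟨d, B, ψ, H₀, T, h1, h2, h3, h4, h5, h6⟩ :=
      trade_fg hA hK hK1 hκ (s := 1 + lam) (by linarith) (by rw [← hlam])
    have hmono : (1 + lam) * κ ≤ s * κ := mul_le_mul_of_nonneg_right hs2.le hκ0.le
    refine ⟨d, B, ψ, H₀, T, h1.trans (by nlinarith), h2, h3, h4.trans ?_, h5.trans ?_, h6⟩
    · apply mul_le_mul_of_nonneg_right _ hA0
      apply Real.exp_le_exp.2
      rw [hpow, ← hlam]
      have h7 : Real.exp (lam / (1 + lam)) ≤ 2.72 := by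
        have h8 : lam / (1 + lam) ≤ 1 := by
          rw [div_le_one (by linarith)]; linarith
        refine (Real.exp_le_exp.2 h8).trans ?_
        have := Real.exp_one_lt_d9; linarith
      have h9 : 0 ≤ κ * (1 + lam) := by positivity
      calc 6000 * κ * Real.exp (lam / (1 + lam)) * (1 + lam)
          = 6000 * (κ * (1 + lam)) * Real.exp (lam / (1 + lam)) := by ring
        _ ≤ 6000 * (κ * (1 + lam)) * 2.72 := mul_le_mul_of_nonneg_left h7 (by linarith)
        _ ≤ 17000 * (κ * (1 + lam)) * 1 := by linarith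
        _ ≤ 17000 * (κ * (1 + lam)) * Real.exp (lam / s) :=
            mul_le_mul_of_nonneg_left hP1 (by linarith)
        _ = _ := by ring
    · apply Real.exp_le_exp.2
      nlinarith

theorem trade {G : Type*} [AddCommGroup G] [DecidableEq G] {K s : ℝ}
    {A : Finset G} (hA : A.Nonempty) (hK : ((A + A).card : ℝ) ≤ K * A.card) (hs : 1 ≤ s) :
    ∃ (d : ℕ) (B : Set (Fin d → ℝ)) (ψ : (Fin d → ℤ) →+ G) (H₀ : AddSubgroup G) (T : Finset G),
      (d : ℝ) ≤ 63000 * s * Real.log (2 * K) ∧ SymmBody B ∧ Finite H₀ ∧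
      (({c : Fin d → ℤ | (fun i => (c i : ℝ)) ∈ B}.ncard * Nat.card H₀ : ℕ) : ℝ) ≤
        Real.exp (17000 * Real.log (2 * K) * (1 + Real.log (2 * K)) ^ (1 / s) *
          (1 + Real.log (1 + Real.log (2 * K)))) * A.card ∧
      (T.card : ℝ) ≤ (2 * K) ^ (24200 * s) ∧ Covers B ψ H₀ T A := by
  classical
  have hApos : (0 : ℝ) < A.card := by exact_mod_cast hA.card_pos
  have hK1 : 1 ≤ K := by
    have h1 : (A.card : ℝ) ≤ (A + A).card := by
      exact_mod_cast Finset.card_le_card_add_right hA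
    nlinarith
  obtain ⟨Γ, hΓ⟩ : ∃ Γ : AddSubgroup G, Γ = AddSubgroup.closure (A : Set G) := ⟨_, rfl⟩
  obtain ⟨A', hA'⟩ := exists_model A Γ (fun a ha => by
    rw [hΓ]; exact AddSubgroup.subset_closure ha)
  have hinj : Function.Injective Γ.subtype := Γ.subtype_injective
  haveI : AddGroup.FG Γ := by
    rw [AddGroup.fg_iff_addSubgroup_fg]
    exact ⟨A, hΓ.symm⟩
  have hA'ne : A'.Nonempty := by
    rw [← hA'] at hA; exact Finset.image_nonempty.1 hA
  have hcard : A'.card = A.card := by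
    rw [← hA', Finset.card_image_of_injective _ hinj]
  have hcard2 : (A' + A').card = (A + A).card := by
    rw [← hA', ← Finset.image_add, Finset.card_image_of_injective _ hinj]
  have hK' : ((A' + A').card : ℝ) ≤ K * A'.card := by rw [hcard2, hcard]; exact hK
  obtain ⟨d, B, ψ, H₀, T, hd, hB, hH₀, hvol, hT, hcov⟩ := trade_fg' hA'ne hK' hK1 hs
  refine ⟨d, B, Γ.subtype.comp ψ, H₀.map Γ.subtype, T.image Γ.subtype, hd, hB, ?_, ?_, ?_, ?_⟩
  · have : (H₀.map Γ.subtype : Set G).Finite := by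
      rw [AddSubgroup.coe_map]
      exact (Set.toFinite (H₀ : Set Γ)).image _
    exact this.to_subtype
  · have h1 : Nat.card (H₀.map Γ.subtype) = Nat.card H₀ :=
      Nat.card_congr (H₀.equivMapOfInjective Γ.subtype hinj).toEquiv.symm
    rw [h1, ← hcard]
    exact hvol
  · refine le_trans ?_ hT
    exact_mod_cast Finset.card_image_le
  · intro a ha
    rw [← hA'] at ha
    obtain ⟨a', ha', rfl⟩ := Finset.mem_image.1 ha
    obtain ⟨t, ht, c, hc, h, hh, e⟩ := hcov a' ha'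
    refine ⟨Γ.subtype t, Finset.mem_image_of_mem _ ht, c, hc, Γ.subtype h, ⟨h, hh, rfl⟩, ?_⟩
    rw [e, map_add, map_add]
    rfl

end H137.Tr
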