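import Pool.Agent.H112R2.Main
set_option autoImplicit false

/-! Sublattices of `ℤ^m` generated by few elements. -/

namespace H137.Tr

open Finset H112

theorem sublattice {m : ℕ} (N : Seminorm ℝ (Fin m → ℝ)) (hN : ∀ x, N x = 0 → x = 0)
    (S : Finset (Fin m → ℤ)) :
    ∃ (r : ℕ) (N' : Seminorm ℝ (Fin r → ℝ)) (e : (Fin r → ℤ) →+ (Fin m → ℤ)),
      r ≤ S.card ∧ Function.Injective e ∧ (∀ x, N' x = 0 → x = 0) ∧
      (∀ c : Fin r → ℤ, N' (fun i => (c i : ℝ)) = N (fun i => (e c i : ℝ))) ∧
      ∀ v ∈ AddSubgroup.closure (S : Set (Fin m → ℤ)), ∃ c, e c = v := by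
  classical
  -- the cast homomorphism
  let ι : (Fin m → ℤ) →ₗ[ℤ] (Fin m → ℝ) :=
    { toFun := fun c i => (c i : ℝ)
      map_add' := fun a b => by funext i; simp
      map_smul' := fun n a => by funext i; simp }
  have hι : ∀ c, ι c = fun i => (c i : ℝ) := fun c => rfl
  have hιinj : Function.Injective ι := fun a b h => by
    funext i
    have := congrFun h i
    simp only [hι] at this
    exact_mod_cast this
  let X : Finset (Fin m → ℝ) := S.image ι
  let V : Submodule ℝ (Fin m → ℝ) := Submodule.span ℝ (X : Set (Fin m → ℝ))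
  let L : Submodule ℤ (Fin m → ℝ) := Submodule.span ℤ (X : Set (Fin m → ℝ))
  have hLV : ∀ l ∈ L, l ∈ V := fun l hl => by
    have : L ≤ V.restrictScalars ℤ := Submodule.span_le.mpr fun x hx => Submodule.subset_span hx
    exact this hl
  have hLι : ∀ l ∈ L, ∃ c, ι c = l := fun l hl => by
    have : L ≤ LinearMap.range ι := by
      apply Submodule.span_le.mpr
      intro x hx
      obtain ⟨s, _, rfl⟩ := Finset.mem_image.1 (Finset.mem_coe.1 hx)
      exact ⟨s, rfl⟩
    exact this hl
  let L₀ : Submodule ℤ V := L.comap (V.subtype.restrictScalars ℤ)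
  have hmem : ∀ v : V, v ∈ L₀ ↔ (v : Fin m → ℝ) ∈ L := fun v => Iff.rfl
  have hgap : ∀ l ∈ L, ‖l‖ < 1 → l = 0 := by
    intro l hl hn
    obtain ⟨c, rfl⟩ := hLι l hl
    have h1 : c = 0 := by
      funext i
      have h2 : ‖(ι c) i‖ < 1 := lt_of_le_of_lt (norm_le_pi_norm _ _) hn
      rw [hι, Real.norm_eq_abs] at h2
      have h2' : |((c i : ℤ) : ℝ)| < 1 := h2
      have h3 : |c i| < 1 := by exact_mod_cast h2'
      exact Int.abs_lt_one_iff.mp h3
    rw [h1, map_zero]
  have : DiscreteTopology L₀ := by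
    apply discreteTopology_of_isOpen_singleton_zero
    rw [Metric.isOpen_singleton_iff]
    refine ⟨1, one_pos, fun y hy => ?_⟩
    have h1 : ‖((y : V) : Fin m → ℝ)‖ < 1 := by
      rw [dist_zero_right] at hy; exact hy
    have := hgap _ ((hmem y).mp y.2) h1
    ext1; ext1; exact this
  have : IsZLattice ℝ L₀ := ⟨by
    rw [eq_top_iff]
    rintro ⟨v, hv⟩ -
    induction hv using Submodule.span_induction with
    | mem x hx => exact Submodule.subset_span ((hmem _).mpr (Submodule.subset_span hx))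
    | zero => exact Submodule.zero_mem _
    | add a b ha hb iha ihb => exact Submodule.add_mem _ iha ihb
    | smul n a ha ih => exact Submodule.smul_mem _ n ih⟩
  have : Module.Finite ℤ L₀ := ZLattice.module_finite ℝ L₀
  have : Module.Free ℤ L₀ := ZLattice.module_free ℝ L₀
  let r := Module.finrank ℤ L₀
  let b : Module.Basis (Fin r) ℤ L₀ := Module.finBasis ℤ L₀
  let B : Module.Basis (Fin r) ℝ V := b.ofZLatticeBasis ℝ L₀
  have hB : ∀ i, B i = (b i : V) := fun i => Module.Basis.ofZLatticeBasis_apply ℝ L₀ b i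
  have hr : r ≤ S.card := by
    have h1 : r = Module.finrank ℝ V := ZLattice.rank ℝ L₀
    rw [h1]
    exact (finrank_span_finset_le_card X).trans Finset.card_image_le
  have hlift : ∀ i, ∃ c : Fin m → ℤ, ι c = ((b i : V) : Fin m → ℝ) :=
    fun i => hLι _ ((hmem _).mp (b i).2)
  choose x hx using hlift
  let T : (Fin r → ℝ) →ₗ[ℝ] (Fin m → ℝ) :=
    V.subtype ∘ₗ (B.equivFun.symm : (Fin r → ℝ) →ₗ[ℝ] V)
  have hT : ∀ a, T a = ∑ i, a i • ((b i : V) : Fin m → ℝ) := fun a => by
    simp only [T, LinearMap.comp_apply, LinearEquiv.coe_coe, Module.Basis.equivFun_symm_apply,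
      map_sum, map_smul, hB]
    rfl
  have hTinj : ∀ a, T a = 0 → a = 0 := fun a ha => by
    have h1 : (B.equivFun.symm a : V) = 0 := by
      apply Subtype.ext; exact ha
    have h2 := congrArg B.equivFun h1
    rw [LinearEquiv.apply_symm_apply, map_zero] at h2
    exact h2
  let e : (Fin r → ℤ) →+ (Fin m → ℤ) :=
    AddMonoidHom.mk' (fun c => ∑ i, c i • x i) (fun c d => by
      simp [add_smul, Finset.sum_add_distrib])
  have he : ∀ c, e c = ∑ i, c i • x i := fun c => rfl
  have hkey : ∀ c : Fin r → ℤ, ι (e c) = T (fun i => (c i : ℝ)) := fun c => by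
    rw [he, map_sum, hT]
    refine Finset.sum_congr rfl fun i _ => ?_
    rw [map_smul, hx]
    exact (Int.cast_smul_eq_zsmul ℝ _ _).symm
  refine ⟨r, N.comp T, e, hr, ?_, ?_, ?_, ?_⟩
  · rw [injective_iff_map_eq_zero]
    intro c hc
    have h1 : T (fun i => (c i : ℝ)) = 0 := by rw [← hkey, hc, map_zero]
    have h2 := hTinj _ h1
    funext i
    have := congrFun h2 i
    simp only [Pi.zero_apply] at this ⊢
    exact_mod_cast this
  · intro a ha
    rw [Seminorm.comp_apply] at ha
    exact hTinj _ (hN _ ha)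
  · intro c
    rw [Seminorm.comp_apply, ← hkey]
    rfl
  · intro v hv
    have hvL : ι v ∈ L := by
      induction hv using AddSubgroup.closure_induction with
      | mem y hy => exact Submodule.subset_span (Finset.mem_coe.2 (Finset.mem_image_of_mem _ hy))
      | zero => rw [map_zero]; exact Submodule.zero_mem _
      | add a b _ _ iha ihb => rw [map_add]; exact Submodule.add_mem _ iha ihb
      | neg a _ ih => rw [map_neg]; exact Submodule.neg_mem _ ih
    let z : L₀ := ⟨⟨ι v, hLV _ hvL⟩, hvL⟩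
    refine ⟨fun i => b.repr z i, ?_⟩
    apply hιinj
    rw [he, map_sum]
    have h1 : ∑ i, b.repr z i • b i = z := b.sum_repr z
    have h2 : (((∑ i, b.repr z i • b i : L₀) : V) : Fin m → ℝ) = ((z : V) : Fin m → ℝ) := by
      rw [h1]
    have h3 : ((z : V) : Fin m → ℝ) = ι v := rfl
    rw [h3] at h2
    rw [← h2, Submodule.coe_sum, Submodule.coe_sum]
    refine Finset.sum_congr rfl fun i _ => ?_
    rw [map_smul, hx]
    rfl

end H137.Tr
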