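import Pool.Agent.H112R2.Main
import Pool.Agent.H137R2.Weak.Final
import Pool.Agent.H137R2.Tr.Sublattice
set_option autoImplicit false

/-! Lifting a subset of a Bohr set to a lattice and reducing the rank with the weak
Freiman-Ruzsa theorem. -/

namespace H137.Tr

open Finset H112
open scoped Pointwise

/-- the weak Marton theorem with an arbitrary `DecidableEq` instance -/
theorem wm {Γ : Type*} [AddCommGroup Γ] [d : DecidableEq Γ] {K : ℝ} {A : Finset Γ}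
    (hA : A.Nonempty) (hK : ((A + A).card : ℝ) ≤ K * A.card) :
    ∃ (P : AddSubgroup Γ) (S T : Finset Γ), Finite P ∧
      (S.card : ℝ) ≤ 480 * Real.log K + 1 ∧ T ⊆ A ∧ (T.card : ℝ) ≤ K ^ 185 ∧
      ∀ a ∈ A, ∃ t ∈ T, ∃ o : Γ, (∃ m : ℕ, Odd m ∧ m • o = 0) ∧
        a - t - o ∈ P ⊔ AddSubgroup.closure (S : Set Γ) := by
  have hd : d = (fun a b => Classical.propDecidable (a = b)) := Subsingleton.elim _ _
  subst hd
  obtain ⟨P, S, T, h1, _, _, h2, h3, h4, h5⟩ := H137.Weak.weak_marton hA hK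
  exact ⟨P, S, T, h1, h2, h3, h4, h5⟩

/-- pigeonhole -/
theorem pigeon {α β : Type*} (A : Finset α) (hA : A.Nonempty) (T : Finset β) (R : β → α → Prop)
    [∀ t, DecidablePred (R t)] (h : ∀ a ∈ A, ∃ t ∈ T, R t a) :
    ∃ t ∈ T, A.card ≤ T.card * (A.filter (R t)).card := by
  classical
  have hT : T.Nonempty := by
    obtain ⟨a, ha⟩ := hA
    obtain ⟨t, ht, _⟩ := h a ha
    exact ⟨t, ht⟩
  obtain ⟨t, ht, hmax⟩ := Finset.exists_max_image T (fun t => (A.filter (R t)).card) hT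
  refine ⟨t, ht, ?_⟩
  have h1 : A ⊆ T.biUnion fun t => A.filter (R t) := by
    intro a ha
    obtain ⟨t, ht, hr⟩ := h a ha
    exact Finset.mem_biUnion.2 ⟨t, ht, Finset.mem_filter.2 ⟨ha, hr⟩⟩
  calc A.card ≤ (T.biUnion fun t => A.filter (R t)).card := Finset.card_le_card h1
    _ ≤ ∑ t ∈ T, (A.filter (R t)).card := Finset.card_biUnion_le
    _ ≤ T.card • (A.filter (R t)).card := Finset.sum_le_card_nsmul _ _ _ hmax
    _ = _ := by rw [smul_eq_mul]

variable {G : Type*} [AddCommGroup G]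

theorem pi_torsion {m : ℕ} {v : Fin m → ℤ} {n : ℕ} (hn : 0 < n) (h : n • v = 0) : v = 0 := by
  funext i
  have h1 := congrFun h i
  simp only [Pi.smul_apply, Pi.zero_apply, nsmul_eq_mul, mul_eq_zero] at h1
  rcases h1 with h1 | h1
  · have : n = 0 := by exact_mod_cast h1
    omega
  · simpa using h1

theorem lift_cover [DecidableEq G] {S : Set (G →+ UnitAddCircle)}
    (hfin : (bohr S (1 / 6)).Finite)
    {m : ℕ} {N : Seminorm ℝ (Fin m → ℝ)} {ψ : (Fin m → ℤ) →+ G} (hN : ∀ x, N x = 0 → x = 0)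
    (h1 : ∀ c : Fin m → ℤ, N (fun i => (c i : ℝ)) < 1 / 2 → ∀ r : ℝ, 0 ≤ r →
        (ψ c ∈ bohr S r ↔ c ∈ LL N r))
    {ρ : ℝ} (hρ0 : 0 ≤ ρ) (hρ12 : ρ ≤ 1 / 12)
    (h2 : ∀ x ∈ bohr S ρ, ∃ c ∈ LL N ρ, x - ψ c ∈ ann S)
    {A : Finset G} (hA : A.Nonempty) (hAS : ∀ a ∈ A, a ∈ bohr S ρ) {K : ℝ}
    (hK : ((A + A).card : ℝ) ≤ K * A.card) :
    ∃ (r : ℕ) (N' : Seminorm ℝ (Fin r → ℝ)) (ψ' : (Fin r → ℤ) →+ G) (A₂ : Finset G),
      (r : ℝ) ≤ 480 * Real.log K + 1 ∧ (∀ x, N' x = 0 → x = 0) ∧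
      A₂ ⊆ A ∧ (A.card : ℝ) ≤ K ^ 185 * A₂.card ∧
      (∀ x ∈ A₂, ∀ y ∈ A₂, ∃ c ∈ LL N' (2 * ρ), x - y - ψ' c ∈ ann S) ∧
      (LL N' (2 * ρ)).ncard * Nat.card (ann S) ≤ (bohr S (1 / 6)).ncard := by
  classical
  have hex : ∀ x : G, ∃ z : (Fin m → ℤ) × ann S, x ∈ bohr S ρ →
      (z.1 ∈ LL N ρ ∧ ψ z.1 + (z.2 : G) = x) := by
    intro x
    by_cases hx : x ∈ bohr S ρ
    · obtain ⟨c, hc, hc2⟩ := h2 x hx
      exact ⟨(c, ⟨x - ψ c, hc2⟩), fun _ => ⟨hc, by simp⟩⟩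
    · exact ⟨0, fun h => absurd h hx⟩
  choose φ hφ using hex
  let F : ((Fin m → ℤ) × ann S) →+ G := AddMonoidHom.coprod ψ (ann S).subtype
  have hF : ∀ z, F z = ψ z.1 + (z.2 : G) := fun z => by simp [F]
  have hφF : ∀ x ∈ A, F (φ x) = x := fun x hx => by
    rw [hF]; exact (hφ x (hAS x hx)).2
  have hφL : ∀ x ∈ A, (φ x).1 ∈ LL N ρ := fun x hx => (hφ x (hAS x hx)).1
  set At : Finset ((Fin m → ℤ) × ann S) := A.image φ with hAt
  have hAtne : At.Nonempty := hA.image _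
  have hAtL : ∀ z ∈ At, z.1 ∈ LL N ρ := by
    intro z hz
    obtain ⟨x, hx, rfl⟩ := Finset.mem_image.1 hz
    exact hφL x hx
  have hφinj : Set.InjOn φ (A : Set G) := fun x hx y hy hxy => by
    rw [← hφF x hx, ← hφF y hy, hxy]
  have hAtcard : At.card = A.card := Finset.card_image_of_injOn hφinj
  have hAtF : ∀ z ∈ At, F z ∈ A := by
    intro z hz
    obtain ⟨x, hx, rfl⟩ := Finset.mem_image.1 hz
    rw [hφF x hx]; exact hx
  -- key injectivity
  have hkey : ∀ z z' : (Fin m → ℤ) × ann S, z.1 - z'.1 ∈ LL N (4 * ρ) → F z = F z' → z = z' := by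
    intro z z' hd hzz
    have hd2 : N (fun i => (((z.1 - z'.1) i : ℤ) : ℝ)) < 1 / 2 := by
      have : N (fun i => (((z.1 - z'.1) i : ℤ) : ℝ)) ≤ 4 * ρ := hd
      linarith
    have hd3 : ψ (z.1 - z'.1) ∈ ann S := by
      rw [map_sub]
      rw [hF, hF] at hzz
      have : ψ z.1 - ψ z'.1 = (z'.2 : G) - (z.2 : G) := by
        rw [sub_eq_sub_iff_add_eq_add, add_comm (z'.2 : G) _]
        exact hzz
      rw [this]
      exact (ann S).sub_mem z'.2.2 z.2.2
    have hd4 : z.1 - z'.1 ∈ LL N 0 :=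
      (h1 _ hd2 0 le_rfl).1 (bohr_zero_of_ann hd3 le_rfl)
    have hd5 : z.1 = z'.1 := sub_eq_zero.1 (LL_zero hN hd4)
    apply Prod.ext hd5
    rw [hF, hF, hd5, add_right_inj] at hzz
    exact Subtype.ext hzz
  have hLLneg : ∀ {a : ℝ} {c : Fin m → ℤ}, c ∈ LL N a → -c ∈ LL N a := by
    intro a c hc
    show N _ ≤ a
    have e1 : (fun i => (((-c) i : ℤ) : ℝ)) = -(fun i => (c i : ℝ)) := by
      funext i; simp
    rw [e1, map_neg_eq_map]; exact hc
  have hLLadd : ∀ {a b : ℝ} {c d : Fin m → ℤ}, c ∈ LL N a → d ∈ LL N b →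
      c + d ∈ LL N (a + b) := by
    intro a b c d hc hd
    have := LL_add N hc (hLLneg hd)
    rwa [sub_neg_eq_add] at this
  have hsum : (At + At).card ≤ (A + A).card := by
    apply Finset.card_le_card_of_injOn F
    · intro z hz
      obtain ⟨x, hx, y, hy, rfl⟩ := Finset.mem_add.1 (Finset.mem_coe.1 hz)
      rw [map_add]
      exact Finset.mem_coe.2 (Finset.add_mem_add (hAtF x hx) (hAtF y hy))
    · intro z hz z' hz' hzz
      obtain ⟨x, hx, y, hy, rfl⟩ := Finset.mem_add.1 (Finset.mem_coe.1 hz)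
      obtain ⟨x', hx', y', hy', rfl⟩ := Finset.mem_add.1 (Finset.mem_coe.1 hz')
      apply hkey _ _ _ hzz
      have e1 := LL_add N (hLLadd (hAtL x hx) (hAtL y hy)) (hLLadd (hAtL x' hx') (hAtL y' hy'))
      have e2 : ρ + ρ + (ρ + ρ) = 4 * ρ := by ring
      rw [e2] at e1
      exact e1
  have hKt : ((At + At).card : ℝ) ≤ K * At.card := by
    rw [hAtcard]
    refine le_trans ?_ hK
    exact_mod_cast hsum
  obtain ⟨P, S₁, T₁, hPfin, hS₁, hT₁A, hT₁, hcov⟩ := wm hAtne hKt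
  let π : ((Fin m → ℤ) × ann S) →+ (Fin m → ℤ) := AddMonoidHom.fst _ _
  have hπ : ∀ z, π z = z.1 := fun z => rfl
  obtain ⟨r, N', e, hr, heinj, hN', hNe, hrep⟩ := sublattice N hN (S₁.image π)
  -- the covering by cosets of the sublattice
  have hsub : P ⊔ AddSubgroup.closure (S₁ : Set ((Fin m → ℤ) × ann S)) ≤
      (AddSubgroup.closure ((S₁.image π : Finset (Fin m → ℤ)) : Set (Fin m → ℤ))).comap π := by
    apply sup_le
    · intro p hp
      have hfp : IsOfFinAddOrder (⟨p, hp⟩ : P) := isOfFinAddOrder_of_finite _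
      obtain ⟨n, hn, hnp⟩ := isOfFinAddOrder_iff_nsmul_eq_zero.1 hfp
      have h3 : n • p = 0 := by
        have := congrArg Subtype.val hnp
        simpa using this
      have h4 : n • π p = 0 := by rw [← map_nsmul, h3, map_zero]
      rw [AddSubgroup.mem_comap, pi_torsion hn h4]
      exact AddSubgroup.zero_mem _
    · rw [AddSubgroup.closure_le]
      intro s hs
      apply AddSubgroup.subset_closure
      exact Finset.mem_coe.2 (Finset.mem_image_of_mem _ (Finset.mem_coe.1 hs))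
  have hcov2 : ∀ a ∈ At, ∃ t ∈ T₁, π a - π t ∈
      AddSubgroup.closure ((S₁.image π : Finset (Fin m → ℤ)) : Set (Fin m → ℤ)) := by
    intro a ha
    obtain ⟨t, ht, o, ⟨n, hn, hno⟩, hmem⟩ := hcov a ha
    refine ⟨t, ht, ?_⟩
    have h3 := hsub hmem
    rw [AddSubgroup.mem_comap, map_sub, map_sub] at h3
    have h4 : π o = 0 := by
      apply pi_torsion hn.pos
      rw [← map_nsmul, hno, map_zero]
    rw [h4, sub_zero] at h3
    exact h3
  obtain ⟨t, ht, htc⟩ := pigeon At hAtne T₁ _ hcov2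
  set Bt := At.filter (fun a => π a - π t ∈
      AddSubgroup.closure ((S₁.image π : Finset (Fin m → ℤ)) : Set (Fin m → ℤ))) with hBt
  have hBA : ∀ z ∈ Bt, z ∈ At := fun z hz => (Finset.mem_filter.1 hz).1
  have hFinj : Set.InjOn F (Bt : Set ((Fin m → ℤ) × ann S)) := by
    intro z hz z' hz' hzz
    apply hkey _ _ _ hzz
    have e1 := LL_add N (hAtL z (hBA z hz)) (hAtL z' (hBA z' hz'))
    have e2 : N (fun i => (((z.1 - z'.1) i : ℤ) : ℝ)) ≤ ρ + ρ := e1
    show N _ ≤ 4 * ρ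
    linarith
  refine ⟨r, N', ψ.comp e, Bt.image F, ?_, hN', ?_, ?_, ?_, ?_⟩
  · have : (r : ℝ) ≤ S₁.card := by
      exact_mod_cast hr.trans Finset.card_image_le
    exact this.trans hS₁
  · intro x hx
    obtain ⟨z, hz, rfl⟩ := Finset.mem_image.1 hx
    exact hAtF z (hBA z hz)
  · rw [Finset.card_image_of_injOn hFinj, ← hAtcard]
    calc (At.card : ℝ) ≤ (T₁.card * Bt.card : ℕ) := by exact_mod_cast htc
      _ = (T₁.card : ℝ) * Bt.card := by push_cast; ring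
      _ ≤ K ^ 185 * Bt.card := mul_le_mul_of_nonneg_right hT₁ (Nat.cast_nonneg _)
  · intro x hx y hy
    obtain ⟨z, hz, rfl⟩ := Finset.mem_image.1 hx
    obtain ⟨w, hw, rfl⟩ := Finset.mem_image.1 hy
    have h3 := (Finset.mem_filter.1 hz).2
    have h4 := (Finset.mem_filter.1 hw).2
    have h5 : π z - π w ∈
        AddSubgroup.closure ((S₁.image π : Finset (Fin m → ℤ)) : Set (Fin m → ℤ)) := by
      have := AddSubgroup.sub_mem _ h3 h4
      rwa [sub_sub_sub_cancel_right] at this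
    obtain ⟨c, hc⟩ := hrep _ h5
    have h6 := LL_add N (hAtL z (hBA z hz)) (hAtL w (hBA w hw))
    refine ⟨c, ?_, ?_⟩
    · show N' _ ≤ 2 * ρ
      rw [hNe, hc]
      have h7 : N (fun i => (((z.1 - w.1) i : ℤ) : ℝ)) ≤ ρ + ρ := h6
      have h8 : N (fun i => (((π z - π w) i : ℤ) : ℝ)) ≤ ρ + ρ := h7
      linarith
    · rw [AddMonoidHom.comp_apply, hc, hF, hF, map_sub, hπ, hπ]
      have h7 : ψ z.1 + (z.2 : G) - (ψ w.1 + (w.2 : G)) - (ψ z.1 - ψ w.1) =
          (z.2 : G) - (w.2 : G) := by abel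
      rw [h7]
      exact (ann S).sub_mem z.2.2 w.2.2
  · have h3 := card_LL_le hfin hN h1 (R := 2 * ρ) (by linarith) (by linarith)
    refine le_trans ?_ h3.2
    apply Nat.mul_le_mul_right
    apply Set.ncard_le_ncard_of_injOn e _ heinj.injOn h3.1
    intro c hc
    show N _ ≤ 2 * ρ
    rw [← hNe]
    exact hc

end H137.Tr
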