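import Pool.Agent.H112R2.Num
set_option autoImplicit false

/-! Numerical estimates. -/

namespace H137.Tr

open H112

theorem exp_le_16 : Real.exp (11 / 4) ≤ 16 := by
  have h1 : Real.exp (11 / 4) ^ 4 ≤ 16 ^ 4 := by
    rw [← Real.exp_nat_mul]
    have e1 : ((4 : ℕ) : ℝ) * (11 / 4) = (11 : ℕ) * 1 := by norm_num
    rw [e1, Real.exp_nat_mul]
    have h2 : Real.exp 1 ≤ 2.7183 := by have := Real.exp_one_lt_d9; linarith
    calc Real.exp 1 ^ 11 ≤ 2.7183 ^ 11 := pow_le_pow_left₀ (Real.exp_pos 1).le h2 11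
      _ ≤ 16 ^ 4 := by norm_num
  exact le_of_pow_le_pow_left₀ (by norm_num) (by norm_num) h1

theorem gf_le {s : ℝ} (hs : 1 ≤ s) (n : ℕ) :
    (1 + 1 / (32 * s)) ^ n ≤ Real.exp (n / (32 * s)) := by
  have h1 : 1 + 1 / (32 * s) ≤ Real.exp (1 / (32 * s)) := by
    have := Real.add_one_le_exp (1 / (32 * s)); linarith
  have h0 : 0 ≤ 1 + 1 / (32 * s) := by positivity
  refine (pow_le_pow_left₀ h0 h1 n).trans (le_of_eq ?_)
  rw [← Real.exp_nat_mul]
  congr 1; ring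

theorem gf_le' {s : ℝ} (hs : 1 ≤ s) {L n : ℕ} (hn : n ≤ 6 * L + 81) :
    (1 + 1 / (32 * s)) ^ n ≤ 16 * 2 ^ L := by
  refine (gf_le hs n).trans ?_
  have h1 : (n : ℝ) / (32 * s) ≤ 11 / 4 + L * Real.log 2 := by
    have h2 : (n : ℝ) ≤ 6 * L + 81 := by exact_mod_cast hn
    have hL0 : (0 : ℝ) ≤ L := Nat.cast_nonneg L
    rw [div_le_iff₀ (by positivity)]
    have h3 := log_two_gt
    have h4 : (L : ℝ) * 0.69 ≤ L * Real.log 2 := mul_le_mul_of_nonneg_left h3.le hL0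
    have h5 : 0 ≤ 11 / 4 + (L : ℝ) * Real.log 2 := by positivity
    have h6 : (11 / 4 + (L : ℝ) * Real.log 2) * 32 ≤ (11 / 4 + (L : ℝ) * Real.log 2) * (32 * s) :=
      mul_le_mul_of_nonneg_left (by linarith) h5
    refine le_trans ?_ h6
    nlinarith
  refine (Real.exp_le_exp.2 h1).trans ?_
  rw [Real.exp_add, Real.exp_nat_mul, Real.exp_log (by norm_num)]
  exact mul_le_mul_of_nonneg_right exp_le_16 (by positivity)

/-- bound for ε -/
theorem eps_small {L j : ℕ} {κ s ε : ℝ} (hκ0 : 0 ≤ κ) (hL : κ ≤ 2 ^ L) (hs : 1 ≤ s)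
    (hj : j = 3 * L + 40)
    (hε : ε = 2 * κ * (j + 2) * (1 + 1 / (32 * s)) ^ (j + 1) / 2 ^ j) :
    4 * Real.sqrt ε ≤ 1 / 12 := by
  have h1 : ((j : ℝ) + 2) ≤ 42 * 2 ^ L := by
    have := lin_le_pow L 42
    have hL0 : (0 : ℝ) ≤ L := Nat.cast_nonneg L
    rw [hj]
    push_cast at *
    nlinarith
  have h2 : (1 + 1 / (32 * s)) ^ (j + 1) ≤ 16 * 2 ^ L := gf_le' hs (by omega)
  have h0 : 0 ≤ (1 + 1 / (32 * s)) ^ (j + 1) := by positivity
  have h3 : 2 * κ * (j + 2) * (1 + 1 / (32 * s)) ^ (j + 1) ≤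
      2 * 2 ^ L * (42 * 2 ^ L) * (16 * 2 ^ L) := by
    gcongr
  have h4 : ε ≤ (1 / 48) ^ 2 := by
    rw [hε, div_le_iff₀ (by positivity)]
    refine h3.trans ?_
    have e1 : (2 : ℝ) ^ j = 2 ^ L * 2 ^ L * 2 ^ L * 2 ^ 40 := by
      rw [hj, ← pow_add, ← pow_add, ← pow_add]; congr 1; ring
    rw [e1]
    have hp : (0 : ℝ) < 2 ^ L * 2 ^ L * 2 ^ L := by positivity
    nlinarith
  have h5 : Real.sqrt ε ≤ 1 / 48 := by
    rw [← Real.sqrt_sq (show (0 : ℝ) ≤ 1 / 48 by norm_num)]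
    exact Real.sqrt_le_sqrt h4
  linarith

/-- the tail condition -/
theorem tail {L j : ℕ} {x : ℝ} (hj : j = 3 * L + 40)
    (hx : x ≤ 2 ^ (3 * L + 13)) :
    (1 / 4 : ℝ) ^ (2 ^ j) ≤ Real.exp (-x) / 4 := by
  have h2 : x + 2 ≤ 2 ^ j := by
    have h3 : (1 : ℝ) ≤ 2 ^ (3 * L + 13) := one_le_pow₀ (by norm_num)
    have h4 : (2 : ℝ) ^ j = 2 ^ (3 * L + 13) * 2 ^ 27 := by
      rw [← pow_add, hj]
    rw [h4]
    nlinarith
  have h3 : (1 / 4 : ℝ) ≤ Real.exp (-1) := by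
    rw [Real.exp_neg]
    have : Real.exp 1 < 4 := by have := Real.exp_one_lt_d9; linarith
    rw [one_div]
    exact inv_anti₀ (Real.exp_pos 1) this.le
  calc (1 / 4 : ℝ) ^ (2 ^ j) ≤ Real.exp (-1) ^ (2 ^ j) :=
        pow_le_pow_left₀ (by norm_num) h3 _
    _ = Real.exp (-(2 : ℝ) ^ j) := by
        rw [← Real.exp_nat_mul]; congr 1; push_cast; ring
    _ ≤ Real.exp (-(x + 2)) := Real.exp_le_exp.2 (by linarith)
    _ = Real.exp (-x) * Real.exp (-2) := by rw [← Real.exp_add]; congr 1; ring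
    _ ≤ Real.exp (-x) / 4 := by
        have h5 : Real.exp (-2) ≤ 1 / 4 := by
          rw [Real.exp_neg, one_div]
          apply inv_anti₀ (by norm_num)
          have : (2 : ℝ) ≤ Real.exp 1 := by have := Real.exp_one_gt_d9; linarith
          have h6 : Real.exp 2 = Real.exp 1 * Real.exp 1 := by rw [← Real.exp_add]; norm_num
          nlinarith
        have := Real.exp_pos (-x)
        nlinarith

/-- the size exponent is small compared with `2^j` -/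
theorem size_exp {L j : ℕ} {κ s b D lk : ℝ} (hκ0 : 0 ≤ κ) (hL : 1 + κ ≤ 2 ^ L) (hs : 1 ≤ s)
    (hs2 : s ≤ 1 + κ) (hj : j = 3 * L + 40)
    (hb : b = 2 * κ * (2 * j + 2) * (1 + 1 / (32 * s)) ^ (2 * j + 1))
    (hD : D = 2 * (32 * s) * κ) (hlk : lk ≤ κ) :
    2 * b + 2 * lk + 2 * D ≤ 2 ^ (3 * L + 13) := by
  have hL1 : (1 : ℝ) ≤ 2 ^ L := one_le_pow₀ (by norm_num)
  have hκL : κ ≤ 2 ^ L := by linarith
  have h1 : (2 * (j : ℝ) + 2) ≤ 82 * 2 ^ L := by
    have := lin_le_pow L 82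
    have hL0 : (0 : ℝ) ≤ L := Nat.cast_nonneg L
    rw [hj]
    push_cast at *
    nlinarith
  have h2 : (1 + 1 / (32 * s)) ^ (2 * j + 1) ≤ 16 * 2 ^ L := gf_le' hs (by omega)
  have h0 : 0 ≤ (1 + 1 / (32 * s)) ^ (2 * j + 1) := by positivity
  have h3 : b ≤ 2 * 2 ^ L * (82 * 2 ^ L) * (16 * 2 ^ L) := by
    rw [hb]; gcongr
  have h4 : D ≤ 64 * (2 ^ L * 2 ^ L) := by
    rw [hD]
    have : s * κ ≤ 2 ^ L * 2 ^ L := mul_le_mul (by linarith) hκL hκ0 (by positivity)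
    linarith
  have e1 : (2 : ℝ) ^ (3 * L + 13) = 2 ^ L * 2 ^ L * 2 ^ L * 2 ^ 13 := by
    rw [← pow_add, ← pow_add, ← pow_add]; congr 1; ring
  rw [e1]
  generalize (2 : ℝ) ^ L = X at hL1 hκL h3 h4 ⊢
  have hX0 : 0 < X := by linarith
  have h5 : X ≤ X * X := by nlinarith
  have h6 : X * X ≤ X * X * X := by nlinarith
  nlinarith

/-- the volume exponent -/
theorem vol_exp {L j : ℕ} {κ s b D lk : ℝ} (hκ69 : 0.69 < κ) (hL' : 2 ^ L ≤ 2 * (1 + κ))
    (hs : 1 ≤ s) (hs2 : s ≤ 1 + Real.log (1 + κ)) (hj : j = 3 * L + 40)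
    (hb : b = 2 * κ * (2 * j + 2) * (1 + 1 / (32 * s)) ^ (2 * j + 1))
    (hD : D = 2 * (32 * s) * κ) (hlk : lk ≤ κ) :
    8 * Real.exp (2 * b + 2 * lk + 2 * D) ≤
      Real.exp (6000 * κ * (1 + κ) ^ (1 / s) * (1 + Real.log (1 + κ))) := by
  have hκ0 : 0 < κ := by linarith
  obtain ⟨lam, hlam⟩ : ∃ lam : ℝ, lam = Real.log (1 + κ) := ⟨_, rfl⟩
  have hlam0 : 0 ≤ lam := by rw [hlam]; exact Real.log_nonneg (by linarith)
  rw [← hlam] at hs2
  rw [← hlam]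
  obtain ⟨P, hP⟩ : ∃ P : ℝ, P = (1 + κ) ^ (1 / s) := ⟨_, rfl⟩
  have hPe : P = Real.exp (lam / s) := by
    rw [hP, Real.rpow_def_of_pos (by linarith), hlam]; congr 1; ring
  rw [← hP]
  have hP1 : 1 ≤ P := by rw [hPe]; exact Real.one_le_exp (by positivity)
  have hLlam : (L : ℝ) * 0.69 ≤ 0.7 + lam := by
    have h1 : Real.log ((2 : ℝ) ^ L) ≤ Real.log (2 * (1 + κ)) :=
      Real.log_le_log (by positivity) hL'
    rw [Real.log_pow, Real.log_mul (by norm_num) (by linarith), ← hlam] at h1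
    have h2 := log_two_gt
    have h3 : Real.log 2 < 0.7 := by have := Real.log_two_lt_d9; linarith
    have h4 : (L : ℝ) * 0.69 ≤ L * Real.log 2 :=
      mul_le_mul_of_nonneg_left h2.le (Nat.cast_nonneg L)
    linarith
  have hjr : (j : ℝ) = 3 * L + 40 := by rw [hj]; push_cast; ring
  have h1 : 2 * (j : ℝ) + 2 ≤ 89 * (1 + lam) := by
    rw [hjr]; linarith
  have h2 : (1 + 1 / (32 * s)) ^ (2 * j + 1) ≤ 16 * P := by
    refine (gf_le hs _).trans ?_
    have h3 : (((2 * j + 1 : ℕ) : ℝ)) / (32 * s) ≤ 11 / 4 + lam / s := by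
      rw [div_le_iff₀ (by positivity)]
      have h4 : (11 / 4 + lam / s) * (32 * s) = 88 * s + 32 * lam := by
        field_simp; ring
      rw [h4]
      push_cast
      rw [hjr]
      linarith
    refine (Real.exp_le_exp.2 h3).trans ?_
    rw [Real.exp_add, ← hPe]
    exact mul_le_mul_of_nonneg_right exp_le_16 (by linarith)
  have h0 : 0 ≤ (1 + 1 / (32 * s)) ^ (2 * j + 1) := by positivity
  have h3 : b ≤ 2 * κ * (89 * (1 + lam)) * (16 * P) := by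
    rw [hb]; gcongr
  have h4 : D ≤ 64 * (1 + lam) * κ := by
    rw [hD]
    have : s * κ ≤ (1 + lam) * κ := mul_le_mul_of_nonneg_right hs2 hκ0.le
    linarith
  have h8 : (8 : ℝ) ≤ Real.exp (4 * κ) := by
    have h5 : Real.exp (3 * Real.log 2) ≤ Real.exp (4 * κ) := by
      apply Real.exp_le_exp.2
      have : Real.log 2 < 0.7 := by have := Real.log_two_lt_d9; linarith
      linarith
    have h6 : Real.exp (3 * Real.log 2) = 8 := by
      rw [show (3 : ℝ) * Real.log 2 = (3 : ℕ) * Real.log 2 by norm_num, Real.exp_nat_mul,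
        Real.exp_log (by norm_num)]
      norm_num
    linarith
  calc 8 * Real.exp (2 * b + 2 * lk + 2 * D)
      ≤ Real.exp (4 * κ) * Real.exp (2 * b + 2 * lk + 2 * D) :=
        mul_le_mul_of_nonneg_right h8 (Real.exp_pos _).le
    _ = Real.exp (4 * κ + (2 * b + 2 * lk + 2 * D)) := by rw [← Real.exp_add]
    _ ≤ _ := by
        apply Real.exp_le_exp.2
        have h9 : κ * (1 + lam) ≤ κ * (1 + lam) * P :=
          le_mul_of_one_le_right (by positivity) hP1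
        have h10 : κ ≤ κ * (1 + lam) := le_mul_of_one_le_right hκ0.le (by linarith)
        nlinarith

end H137.Tr
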