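import Pool.Agent.H137R2.Tr.Core
import Pool.Agent.H137R2.Tr.Lift
import Pool.Agent.H137R2.Tr.Num
import Pool.Agent.H112R2.Final
set_option autoImplicit false

/-! Assembly: polynomially many translates, dimension `O(log K)`, almost polynomial volume. -/

namespace H137.Tr

open Finset H112
open scoped Pointwise

theorem trade_fg {G : Type*} [AddCommGroup G] [AddGroup.FG G] [DecidableEq G] {K s κ : ℝ}
    {A : Finset G} (hA : A.Nonempty) (hK : ((A + A).card : ℝ) ≤ K * A.card) (hK1 : 1 ≤ K)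
    (hκ : κ = Real.log (2 * K)) (hs : 1 ≤ s) (hs2 : s ≤ 1 + Real.log (1 + κ)) :
    ∃ (d : ℕ) (B : Set (Fin d → ℝ)) (ψ : (Fin d → ℤ) →+ G) (H₀ : AddSubgroup G) (T : Finset G),
      (d : ℝ) ≤ 63000 * s * κ ∧ SymmBody B ∧ Finite H₀ ∧
      (({c : Fin d → ℤ | (fun i => (c i : ℝ)) ∈ B}.ncard * Nat.card H₀ : ℕ) : ℝ) ≤
        Real.exp (6000 * κ * (1 + κ) ^ (1 / s) * (1 + Real.log (1 + κ))) * A.card ∧
      (T.card : ℝ) ≤ Real.exp (24200 * s * κ) ∧ Covers B ψ H₀ T A := by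
  classical
  have hK0 : (0 : ℝ) < K := by linarith
  have hκeq : κ = Real.log 2 + Real.log K := by
    rw [hκ, Real.log_mul (by norm_num) (by linarith)]
  have hlogK0 : 0 ≤ Real.log K := Real.log_nonneg hK1
  have hl2 := log_two_gt
  have hκ69 : (0.69 : ℝ) < κ := by linarith
  have hκ0 : 0 < κ := by linarith
  have hlogK : Real.log K ≤ κ := by linarith
  obtain ⟨n, hn1, hn2⟩ := exists_nat_pow_near (show (1 : ℝ) ≤ 1 + κ by linarith) (one_lt_two)
  obtain ⟨L, hLdef⟩ : ∃ L : ℕ, L = n + 1 := ⟨_, rfl⟩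
  have hL : 1 + κ ≤ 2 ^ L := by rw [hLdef]; linarith
  have hL' : (2 : ℝ) ^ L ≤ 2 * (1 + κ) := by rw [hLdef, pow_succ]; linarith
  have hκL : κ ≤ 2 ^ L := by linarith
  obtain ⟨j, hj⟩ : ∃ j : ℕ, j = 3 * L + 40 := ⟨_, rfl⟩
  obtain ⟨b, hb⟩ : ∃ b : ℝ, b = 2 * κ * (2 * j + 2) * (1 + 1 / (32 * s)) ^ (2 * j + 1) :=
    ⟨_, rfl⟩
  obtain ⟨D, hD⟩ : ∃ D : ℝ, D = 2 * (32 * s) * κ := ⟨_, rfl⟩
  obtain ⟨ε, hε⟩ : ∃ ε : ℝ, ε = 2 * κ * (j + 2) * (1 + 1 / (32 * s)) ^ (j + 1) / 2 ^ j :=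
    ⟨_, rfl⟩
  have hρ12 : 4 * Real.sqrt ε ≤ 1 / 12 := eps_small hκ0.le hκL hs hj hε
  have hs3 : s ≤ 1 + κ := by
    have := Real.log_le_sub_one_of_pos (show 0 < 1 + κ by linarith)
    linarith
  have h4 : (1 / 4 : ℝ) ^ (2 ^ j) ≤ Real.exp (-(2 * b + 2 * Real.log K + 2 * D)) / 4 :=
    tail hj (size_exp hκ0.le hL hs hs3 hj hb hD hlogK)
  obtain ⟨S, X, hfin, hsize, hX, hXcard, _⟩ :=
    core hA hK hK1 j (s := 32 * s) (by linarith) hκ hb hD hε hρ12 h4
  obtain ⟨ρ, hρdef⟩ : ∃ ρ : ℝ, ρ = 4 * Real.sqrt ε := ⟨_, rfl⟩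
  rw [← hρdef] at hρ12 hX
  have hε0 : 0 < ε := by rw [hε]; positivity
  have hρ0 : 0 < ρ := by rw [hρdef]; positivity
  obtain ⟨m, N, ψ, hN, h1, h2, _⟩ := lattice_repr S hfin hρ0.le (by linarith : ρ ≤ 1 / 6)
  -- the largest piece
  obtain ⟨x₀, hx₀, hx₀c⟩ := pigeon A hA X (fun x a => a - x ∈ bohr S ρ) hX
  set A₀ := A.filter (fun a => a - x₀ ∈ bohr S ρ) with hA₀
  set A' := A₀.image (fun a => a - x₀) with hA'
  have hA'card : A'.card = A₀.card := Finset.card_image_of_injective _ sub_left_injective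
  have hApos : 0 < A.card := hA.card_pos
  have hA₀pos : 0 < A₀.card := by
    rcases Nat.eq_zero_or_pos A₀.card with h | h
    · rw [h, mul_zero] at hx₀c; omega
    · exact h
  have hXpos : 0 < X.card := Finset.card_pos.2 ⟨x₀, hx₀⟩
  have hA'ne : A'.Nonempty := by rw [← Finset.card_pos, hA'card]; exact hA₀pos
  have hA'S : ∀ a ∈ A', a ∈ bohr S ρ := by
    intro a ha
    obtain ⟨u, hu, rfl⟩ := Finset.mem_image.1 ha
    exact (Finset.mem_filter.1 hu).2
  have hsum : (A' + A').card ≤ (A + A).card := by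
    have h3 : A' + A' ⊆ (A + A).image (fun z => z - (x₀ + x₀)) := by
      intro z hz
      obtain ⟨u, hu, v, hv, rfl⟩ := Finset.mem_add.1 hz
      obtain ⟨u', hu', rfl⟩ := Finset.mem_image.1 hu
      obtain ⟨v', hv', rfl⟩ := Finset.mem_image.1 hv
      refine Finset.mem_image.2 ⟨u' + v', Finset.add_mem_add (Finset.mem_filter.1 hu').1
        (Finset.mem_filter.1 hv').1, ?_⟩
      abel
    exact (Finset.card_le_card h3).trans Finset.card_image_le
  obtain ⟨K', hK'def⟩ : ∃ K' : ℝ, K' = K * X.card := ⟨_, rfl⟩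
  have hXr : (1 : ℝ) ≤ X.card := by exact_mod_cast hXpos
  have hK'1 : 1 ≤ K' := by rw [hK'def]; nlinarith
  have hAA' : (A.card : ℝ) ≤ X.card * A'.card := by
    rw [hA'card]; exact_mod_cast hx₀c
  have hKA : K * (A.card : ℝ) ≤ K' * A'.card := by
    rw [hK'def, mul_assoc]
    exact mul_le_mul_of_nonneg_left hAA' hK0.le
  have hK'sum : ((A' + A').card : ℝ) ≤ K' * A'.card := by
    calc ((A' + A').card : ℝ) ≤ (A + A).card := by exact_mod_cast hsum
      _ ≤ K * A.card := hK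
      _ ≤ _ := hKA
  obtain ⟨r, N', ψ', A₂, hr, hN', hA₂, hA₂c, hdiff, hvol⟩ :=
    lift_cover hfin hN h1 hρ0.le hρ12 h2 hA'ne hA'S hK'sum
  -- logarithm of `K'`
  have hlogK' : Real.log K' ≤ 130 * s * κ := by
    have h3 : K' ≤ K * (K * Real.exp (2 * D + 1)) := by
      rw [hK'def]; exact mul_le_mul_of_nonneg_left hXcard hK0.le
    have h5 : Real.log K' ≤ Real.log K + (Real.log K + (2 * D + 1)) := by
      refine (Real.log_le_log (by linarith) h3).trans (le_of_eq ?_)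
      rw [Real.log_mul (by linarith) (by positivity), Real.log_mul (by linarith) (by positivity),
        Real.log_exp]
    have h6 : κ ≤ s * κ := le_mul_of_one_le_left hκ0.le hs
    rw [hD] at h5
    nlinarith
  have hKpow : K' ^ 186 ≤ Real.exp (24200 * s * κ) := by
    rw [← Real.exp_log (show 0 < K' by linarith), ← Real.exp_nat_mul]
    apply Real.exp_le_exp.2
    have h6 : 0 < s * κ := by positivity
    push_cast
    nlinarith
  -- covering
  set A₃ := A₂.image (fun a => a + x₀) with hA₃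
  have hA₃card : A₃.card = A₂.card :=
    Finset.card_image_of_injective _ (add_left_injective x₀)
  have hA₃A : A₃ ⊆ A := by
    intro z hz
    obtain ⟨u, hu, rfl⟩ := Finset.mem_image.1 hz
    obtain ⟨v, hv, rfl⟩ := Finset.mem_image.1 (hA₂ hu)
    have := (Finset.mem_filter.1 hv).1
    simpa using this
  have hA₂pos : 0 < A₂.card := by
    rcases Nat.eq_zero_or_pos A₂.card with h | h
    · rw [h] at hA₂c
      have : (0 : ℝ) < A'.card := by exact_mod_cast hA'ne.card_pos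
      push_cast at hA₂c
      rw [mul_zero] at hA₂c
      linarith
    · exact h
  have hA₃ne : A₃.Nonempty := by rw [← Finset.card_pos, hA₃card]; exact hA₂pos
  have hcov : ((A + A₃).card : ℝ) ≤ K' ^ 186 * A₃.card := by
    calc ((A + A₃).card : ℝ) ≤ (A + A).card := by
          exact_mod_cast Finset.card_le_card (Finset.add_subset_add_left hA₃A)
      _ ≤ K * A.card := hK
      _ ≤ K' * A'.card := hKA
      _ ≤ K' * (K' ^ 185 * A₂.card) := mul_le_mul_of_nonneg_left hA₂c (by linarith)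
      _ = K' ^ 186 * A₃.card := by rw [hA₃card]; ring
  obtain ⟨T, _, hT, hTcov⟩ := Finset.ruzsa_covering_add hA₃ne hcov
  refine ⟨r, {x | N' x ≤ 2 * ρ}, ψ', ann S, T, ?_, symmBody_ball N' hN' (by linarith),
    ann_finite hfin, ?_, hT.trans hKpow, ?_⟩
  · have h6 : κ ≤ s * κ := le_mul_of_one_le_left hκ0.le hs
    nlinarith
  · have h3 : ((({c : Fin r → ℤ | (fun i => (c i : ℝ)) ∈ {x | N' x ≤ 2 * ρ}}.ncard *
        Nat.card (ann S) : ℕ)) : ℝ) ≤ (bohr S (1 / 6)).ncard := by exact_mod_cast hvol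
    refine h3.trans (hsize.trans ?_)
    apply mul_le_mul_of_nonneg_right _ (Nat.cast_nonneg _)
    exact vol_exp hκ69 hL' hs hs2 hj hb hD hlogK
  · intro a ha
    obtain ⟨x, hx, y, hy, hxy⟩ := Finset.mem_add.1 (hTcov ha)
    obtain ⟨u, hu, v, hv, huv⟩ := Finset.mem_sub.1 hy
    obtain ⟨u', hu', rfl⟩ := Finset.mem_image.1 hu
    obtain ⟨v', hv', rfl⟩ := Finset.mem_image.1 hv
    obtain ⟨c, hc, hc2⟩ := hdiff u' hu' v' hv'
    refine ⟨x, hx, c, hc, u' - v' - ψ' c, hc2, ?_⟩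
    rw [← hxy, ← huv]; abel

end H137.Tr
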